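import Pool.Agent.HW73.StageV68
import Pool.Agent.HW72.CoreW

/-!
# HW73/CoreV68 : bounded core, bounded exceptional part, independent part
-/

namespace HW73

open HJ71 HM71 HW71 HW72

variable {w : ℕ}

open Classical in
theorem core_derV (hw : 3 ≤ w) {p b : ℕ} (D : Dig) [Fintype D.V] (R E I : Finset D.V)
    (hR : R.card ≤ p) (hcore : ¬ Dicolorable (ind D (R : Set D.V)) (w - 1)) (hE : E.card ≤ b)
    (hI : ∀ z ∈ I, z ∉ R ∧ ∀ y ∈ I, ¬ D.adj z y)
    (hD : ¬ Dicolorable (ind D ({v | AnchoredAtC w D R p v} ∪ (E : Set D.V) ∪ (I : Set D.V))) w)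
    {l : List Dig} (hb : Bas (w + 1) l) :
    Der (w + 1) (2 ^ (p * p) * (QVX w b (p + (3 * w + 1)) (Fintype.card D.V) + 5)) l
      D.adj := by
  have hno : NoCol w D.adj ({v | AnchoredAtC w D R p v} ∪ (E : Set D.V) ∪ (I : Set D.V)) :=
    nocol_of hD
  refine (lcl hb D.adj R (c := QVX w b (p + (3 * w + 1)) (Fintype.card D.V))
    fun Y0 hY0 hP => ?_).up
    (Nat.mul_le_mul (Nat.pow_le_pow_right (by norm_num) (Nat.mul_le_mul hR hR)) le_rfl)
  by_cases hr : ∃ r : Fin w → D.V, (∀ c, r c ∈ R) ∧ ∀ c c', c ≠ c' → Y0 (r c) (r c')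
  · obtain ⟨r, hr, hrr⟩ := hr
    let Y1 : D.V → D.V → Prop := fun x y => D.adj x y ∨ (x ∈ R ∧ y ∈ R ∧ Y0 x y)
    have hY1 : ∀ x y, D.adj x y → Y1 x y := fun x y h => Or.inl h
    have h10 : ∀ x y, Y1 x y → Y0 x y := fun x y h => h.elim (hY0 x y) fun h => h.2.2
    have hrr1 : ∀ c c', c ≠ c' → Y1 (r c) (r c') := fun c c' h =>
      Or.inr ⟨hr c, hr c', hrr c c' h⟩
    let A : Finset D.V := (Finset.univ.filter fun v => AnchoredAtC w D R p v) ∪
      Finset.univ.image r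
    have hSA : ∀ u ∈ A, SA Y1 r (p + (3 * w + 1)) u := by
      intro u hu
      rcases Finset.mem_union.1 hu with hu | hu
      · exact (Finset.mem_filter.1 hu).2.sa (by omega) hY1
          (fun x hx h => hP.1 x hx (h10 _ _ h)) hr hrr1
      · obtain ⟨c, _, rfl⟩ := Finset.mem_image.1 hu
        exact (SA.near (a := c) (b := c) (fun c' hc' => hrr1 _ _ hc'.symm)
          (fun c' hc' => hrr1 _ _ hc') hrr1).mono (by omega)
    let I0 : Finset D.V := I.filter fun z => z ∉ A ∧ z ∉ E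
    have hHI : HV Y1 r A E I0 := by
      refine ⟨fun c => Finset.mem_union_right _ (Finset.mem_image_of_mem _ (Finset.mem_univ c)),
        fun z hz => (Finset.mem_filter.1 hz).2.1, fun z hz => (Finset.mem_filter.1 hz).2.2,
        fun z hz y hy hzy => ?_⟩
      obtain ⟨hzR, hnb⟩ := hI z (Finset.mem_filter.1 hz).1
      rcases hzy with h | h
      · exact hnb y (Finset.mem_filter.1 hy).1 h
      · exact hzR h.1
    have hno1 : NoCol w Y1 {x | x ∈ A ∨ x ∈ E ∨ x ∈ I0} := by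
      refine (nocol_set hno ?_).adj_mono hY1
      rintro x ((hx | hx) | hx)
      · exact Or.inl (Finset.mem_union_left _ (Finset.mem_filter.2 ⟨Finset.mem_univ _, hx⟩))
      · exact Or.inr (Or.inl (Finset.mem_coe.1 hx))
      · by_cases hxA : x ∈ A
        · exact Or.inl hxA
        · by_cases hxE : x ∈ E
          · exact Or.inr (Or.inl hxE)
          · exact Or.inr (Or.inr (Finset.mem_filter.2 ⟨Finset.mem_coe.1 hx, hxA, hxE⟩))
    exact (coreV hrr1 hw (by omega) hSA hE hHI hno1 hb).hom (fun x => x) h10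
  · exfalso
    obtain ⟨w', rfl⟩ : ∃ w', w = w' + 1 := ⟨w - 1, by omega⟩
    obtain ⟨f, hf⟩ := chains hP (w := w') hr (by omega)
    refine hcore ⟨fun x => f x.1, fun i hi => ?_⟩
    obtain ⟨x, hx⟩ := hi
    exact nocycle hP hf (x := x.1) (Relation.TransGen.lift
      (fun z : (ind D (R : Set D.V)).V => z.1) (fun a b h =>
        ⟨a.2, b.2, hY0 _ _ h.2.2, h.1.trans h.2.1.symm⟩) _ _ hx)

/-- the exponent -/
def eV (w b : ℕ) : ℕ := qq w b + 3

theorem arithV (w b p n : ℕ) (hn : 1 ≤ n) :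
    QV w b p n ≤ (5 * (w * w * KW w) + w * w * KV w b p (qq w b) + 3 * Kp p + 2 ^ (p * p) * 5) *
      n ^ eV w b := by
  have hN : n ^ qq w b ≤ n ^ eV w b := Nat.pow_le_pow_right hn (by unfold eV; omega)
  have h3 : n ^ 3 ≤ n ^ eV w b := Nat.pow_le_pow_right hn (by unfold eV; omega)
  have h2 : n * n ≤ n ^ 3 := by
    calc n * n = n ^ 2 := (pow_two n).symm
      _ ≤ _ := Nat.pow_le_pow_right hn (by norm_num)
  have h4 : n ≤ n ^ 3 := by
    calc n = n ^ 1 := (pow_one n).symm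
      _ ≤ _ := Nat.pow_le_pow_right hn (by norm_num)
  unfold QV LVc
  generalize n ^ eV w b = P at hN h3 ⊢
  generalize n ^ qq w b = N at hN ⊢
  generalize KV w b p (qq w b) = K4
  generalize KW w = K
  generalize Kp p = Kq
  generalize 2 ^ (p * p) * 5 = K3
  have a1 : (n + 1) * (n * n * (w * w * K)) ≤ 2 * (w * w * K * P) := by
    calc (n + 1) * (n * n * (w * w * K)) ≤ (2 * n) * (n * n * (w * w * K)) :=
          Nat.mul_le_mul_right _ (by omega)
      _ = 2 * (w * w * K * n ^ 3) := by ring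
      _ ≤ _ := Nat.mul_le_mul_left _ (Nat.mul_le_mul_left _ h3)
  have a2 : w * w * N * K4 ≤ w * w * K4 * P := by
    calc w * w * N * K4 = w * w * K4 * N := by ring
      _ ≤ _ := Nat.mul_le_mul_left _ hN
  have a3 : (n * n + N + 1) * (w * w * K) ≤ 3 * (w * w * K * P) := by
    calc (n * n + N + 1) * (w * w * K) ≤ (3 * P) * (w * w * K) :=
          Nat.mul_le_mul_right _ (by omega)
      _ = _ := by ring
  have a4 : n * K3 ≤ K3 * P := by
    calc n * K3 = K3 * n := Nat.mul_comm _ _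
      _ ≤ _ := Nat.mul_le_mul_left _ (h4.trans h3)
  have a5 : n * (3 * n * Kq) ≤ 3 * Kq * P := by
    calc n * (3 * n * Kq) = 3 * Kq * (n * n) := by ring
      _ ≤ _ := Nat.mul_le_mul_left _ (h2.trans h3)
  calc _ ≤ 2 * (w * w * K * P) + w * w * K4 * P + 3 * (w * w * K * P) + 3 * Kq * P + K3 * P := by
        omega
    _ = _ := by ring

/-- the constant factor -/
def CV (w b p : ℕ) : ℕ :=
  2 ^ (p * p) * (2 ^ ((b + w) * (b + w)) *
    ((5 * (w * w * KW w) + w * w * KV w b (p + (3 * w + 1)) (qq w b) +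
      3 * Kp (p + (3 * w + 1)) +
      2 ^ ((p + (3 * w + 1)) * (p + (3 * w + 1))) * 5) * (b * w + 1) ^ b + 5) + 5) + 1

theorem arithV2 (w b p n : ℕ) (hn : 1 ≤ n) :
    2 ^ (p * p) * (QVX w b (p + (3 * w + 1)) n + 5) + n ≤ CV w b p * n ^ eV w b := by
  have h1 := arithV w b (p + (3 * w + 1)) n hn
  have h2 : n ≤ n ^ eV w b := by
    calc n = n ^ 1 := (pow_one _).symm
      _ ≤ _ := Nat.pow_le_pow_right hn (by unfold eV; omega)
  have h3 : 1 ≤ n ^ eV w b := hn.trans h2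
  unfold QVX CV
  generalize QV w b (p + (3 * w + 1)) n = q at h1 ⊢
  generalize n ^ eV w b = P at h1 h2 h3 ⊢
  generalize 5 * (w * w * KW w) + w * w * KV w b (p + (3 * w + 1)) (qq w b) +
      3 * Kp (p + (3 * w + 1)) +
      2 ^ ((p + (3 * w + 1)) * (p + (3 * w + 1))) * 5 = K at h1 ⊢
  generalize (b * w + 1) ^ b = L
  generalize 2 ^ ((b + w) * (b + w)) = T1
  generalize 2 ^ (p * p) = T2
  have s1 : q * L + 5 ≤ (K * L + 5) * P := by
    calc q * L + 5 ≤ K * P * L + 5 * P := Nat.add_le_add (Nat.mul_le_mul_right _ h1) (by omega)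
      _ = _ := by ring
  have s2 : T1 * (q * L + 5) + 5 ≤ (T1 * (K * L + 5) + 5) * P := by
    calc T1 * (q * L + 5) + 5 ≤ T1 * ((K * L + 5) * P) + 5 * P :=
          Nat.add_le_add (Nat.mul_le_mul_left _ s1) (by omega)
      _ = _ := by ring
  calc T2 * (T1 * (q * L + 5) + 5) + n ≤ T2 * ((T1 * (K * L + 5) + 5) * P) + 1 * P :=
        Nat.add_le_add (Nat.mul_le_mul_left _ s2) (by omega)
    _ = _ := by ring

/-- the constant -/
def CC (w b p : ℕ) : ℕ := CV w b p + eV w b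

theorem arithV3 (w b p n : ℕ) (hn : 1 ≤ n) :
    CV w b p * n ^ eV w b ≤ CC w b p * n ^ CC w b p :=
  Nat.mul_le_mul (Nat.le_add_right _ _) (Nat.pow_le_pow_right hn (Nat.le_add_left _ _))

theorem mainV (hw : 3 ≤ w) {p b : ℕ} (D : Dig) (R E I : Finset D.V) (hR : R.card ≤ p)
    (hcore : ¬ Dicolorable (ind D (R : Set D.V)) (w - 1)) (hE : E.card ≤ b)
    (hI : ∀ z ∈ I, z ∉ R ∧ ∀ y ∈ I, ¬ D.adj z y)
    (hD : ¬ Dicolorable
      (ind D ({v | AnchoredAtC w D R p v} ∪ (E : Set D.V) ∪ (I : Set D.V))) w) :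
    ∃ H : Dig, IsSub H D ∧
      ConstructibleIn (w + 1) (CC w b p * Nat.card D.V ^ CC w b p) H := by
  classical
  have := D.fin
  have := Fintype.ofFinite D.V
  let T0 : Dig := ⟨Fin (w + 1), inferInstance, fun x y => x ≠ y, fun v h => h rfl⟩
  have hT0 : IsComplete (w + 1) T0 := ⟨by simp [T0], fun _ _ => Iff.rfl⟩
  have hb : Bas (w + 1) [T0] := ⟨T0, List.mem_cons_self, hT0⟩
  obtain ⟨l2, e2, h3⟩ := core_derV hw D R E I hR hcore hE hI hD hb [T0] fun T h => h
  obtain ⟨m2, st2, hm2⟩ := e2.2 0 (Steps.base T0 Steps.nil hT0)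
  obtain ⟨T, hT, φ, hφ⟩ := h3
  obtain ⟨e⟩ : Nonempty (D.V ≃ Fin (Nat.card D.V)) := ⟨Finite.equivFin D.V⟩
  obtain ⟨l3, m3, st3, _, hm3, T', hT', ψ, hψ, hψE⟩ := merge_all
    (fun a b => D.adj (e.symm a) (e.symm b)) (fun a => D.irr _) l2 m2 st2 T hT (fun v => e (φ v))
    (fun a b hab => by simpa using hφ a b hab)
  obtain ⟨l4, m4, st4, hm4⟩ := steps_suffix st3 T' hT'
  refine ⟨T', ⟨fun a => e.symm (ψ a), e.symm.injective.comp hψ, fun x y hxy => hψE x y hxy⟩,
    T', l4, m4, st4, ?_, Equiv.refl _, fun _ _ => Iff.rfl⟩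
  have hne : Nonempty D.V := by
    by_contra hne
    rw [not_nonempty_iff] at hne
    exact hcore ⟨fun x => (hne.false x.1).elim, fun i hi => hne.false hi.choose.1⟩
  have hn : 1 ≤ Fintype.card D.V := Fintype.card_pos
  have ha := (arithV2 w b p (Fintype.card D.V) hn).trans (arithV3 w b p (Fintype.card D.V) hn)
  rw [Nat.card_eq_fintype_card] at hm3 ⊢
  omega

end HW73
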