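import Pool.Agent.HW72.LeafW

/-!
# HW73/Helly68 : the alternatives in a world (representatives of the classes of the independent vertices)
-/

namespace HW73

open HJ71 HM71 HW71 HW72

variable {V : Type} {w : ℕ} {adj : V → V → Prop} {c0 : Fin w} {A I J EA EB EE : Finset V}

/-- monochromatic arcs in `T ∪ EE` -/
def Mn (adj : V → V → Prop) (EE T : Finset V) (F : V → Fin w) (x y : V) : Prop :=
  (x ∈ T ∨ x ∈ EE) ∧ (y ∈ T ∨ y ∈ EE) ∧ adj x y ∧ F x = F y

/-- `F` is valid on `T` in the world `ω` -/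
structure Vd (adj : V → V → Prop) (c0 : Fin w) (A I EA EB EE : Finset V) (ω : Wo V w)
    (T : Finset V) (F : V → Fin w) : Prop where
  col : ∀ u ∈ T, u ∈ A → F u = cw c0 (ω u)
  inl : ∀ z ∈ T, z ∈ I → ∀ c, ω z = Sum.inl c → F z = c
  low : ∀ z ∈ T, z ∈ I → ω z = Sum.inr true → ∀ a ∈ T, a ∈ A → adj z a → F z ≠ F a
  high : ∀ z ∈ T, z ∈ I → ω z = Sum.inr false → ∀ a ∈ T, a ∈ A → adj a z → F z ≠ F a
  cyc : ∀ x, ¬ Relation.TransGen (Mn adj EE T F) x x
  pA : ∀ x y, Relation.TransGen (Mn adj EE T F) x y → x ∈ EA → y ∉ A ∧ y ∉ EB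
  pB : ∀ x y, Relation.TransGen (Mn adj EE T F) x y → x ∈ A → y ∉ EB

theorem Mn.sub {T T' : Finset V} (h : T' ⊆ T) {F : V → Fin w} {x y : V}
    (hxy : Relation.TransGen (Mn adj EE T' F) x y) : Relation.TransGen (Mn adj EE T F) x y :=
  Relation.TransGen.mono (fun _ _ h1 =>
    ⟨h1.1.imp (fun h2 => h h2) id, h1.2.1.imp (fun h2 => h h2) id, h1.2.2⟩) _ _ hxy

theorem Vd.sub {ω : Wo V w} {T T' : Finset V} {F : V → Fin w}
    (hF : Vd adj c0 A I EA EB EE ω T F) (h : T' ⊆ T) : Vd adj c0 A I EA EB EE ω T' F where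
  col u hu := hF.col u (h hu)
  inl z hz := hF.inl z (h hz)
  low z hz hI hw a ha := hF.low z (h hz) hI hw a (h ha)
  high z hz hI hw a ha := hF.high z (h hz) hI hw a (h ha)
  cyc x hx := hF.cyc x (Mn.sub h hx)
  pA x y hxy := hF.pA x y (Mn.sub h hxy)
  pB x y hxy := hF.pB x y (Mn.sub h hxy)

/-- the number of elements needed for one `g` -/
def qq1 (w b : ℕ) : ℕ := 2 ^ b * (2 ^ b * 2 ^ w) * (w + 1) + 2

/-- the number of elements of the sets -/
def qq (w b : ℕ) : ℕ := w ^ b * qq1 w b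

theorem tg_loc {α : Type} {R : α → α → Prop} {x y : α} (h : Relation.TransGen R x y) :
    Relation.TransGen (fun a b => R a b ∧ Relation.ReflTransGen R x a ∧
      Relation.ReflTransGen R b y) x y := by
  induction h using Relation.TransGen.head_induction_on with
  | single h => exact .single ⟨h, .refl, .refl⟩
  | head h1 h2 ih =>
    refine .head ⟨h1, .refl, h2.to_reflTransGen⟩ (Relation.TransGen.mono (fun a b h3 => ?_) _ _ ih)
    exact ⟨h3.1, .head h1 h3.2.1, h3.2.2⟩

open Classical in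
/-- one assignment of colours to the bounded part serves all small sets -/
theorem good_ex {b : ℕ} (hb : EE.card ≤ b) (hw : 1 ≤ w) (ω : Wo V w)
    (h : ∀ T : Finset V, T.card ≤ qq w b → ∃ F, Vd adj c0 A I EA EB EE ω T F) :
    ∃ g : EE → Fin w, ∀ T : Finset V, T.card ≤ qq1 w b →
      ∃ F, Vd adj c0 A I EA EB EE ω T F ∧ ∀ e : EE, F e.1 = g e := by
  by_contra hne
  push Not at hne
  choose T hT1 hT2 using hne
  obtain ⟨F, hF⟩ := h (Finset.univ.biUnion T) (by
    refine (Finset.card_biUnion_le_card_mul _ _ (qq1 w b) fun g _ => hT1 g).trans ?_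
    rw [Finset.card_univ, Fintype.card_fun, Fintype.card_fin, Fintype.card_coe]
    exact Nat.mul_le_mul_right _ (Nat.pow_le_pow_right hw hb))
  obtain ⟨e, he⟩ := hT2 (fun e => F e.1) F (hF.sub (Finset.subset_biUnion_of_mem T
    (Finset.mem_univ _)))
  exact he rfl

open Classical in
/-- the alternatives in a world -/
theorem splitV (hEA : EA ⊆ EE) (hEB : EB ⊆ EE) (dA : ∀ x ∈ EA, x ∉ A) (dB : ∀ x ∈ EB, x ∉ A)
    (dE : ∀ x ∈ EA, x ∉ EB) (hJA : ∀ x ∈ J, x ∉ A) (hJE : ∀ x ∈ J, x ∉ EE)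
    (hJJ : ∀ x ∈ J, ∀ y ∈ J, ¬ adj x y) (hIJ : I ⊆ J)
    (hJI : ∀ z ∈ J, ∀ a ∈ A, ∀ a' ∈ A, adj z a → adj a' z → z ∈ I) {S : Set V}
    (hS : ∀ x ∈ S, x ∈ A ∨ x ∈ EA ∨ x ∈ EB ∨ x ∈ J)
    (hno : NoCol w adj S) {b : ℕ} (hb : EE.card ≤ b) (ω : Wo V w) :
    (∃ u v, (u ∈ A ∨ u ∈ I) ∧ (v ∈ A ∨ v ∈ I) ∧ adj u v ∧
      Relation.TransGen (Mo adj c0 A I ω) v u) ∨
      ∃ T : Finset V, T.card ≤ qq w b ∧ ∀ F, ¬ Vd adj c0 A I EA EB EE ω T F := by
  refine or_iff_not_imp_right.2 fun hcon => ?_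
  push Not at hcon
  have hw : 1 ≤ w := Nat.lt_of_le_of_lt (Nat.zero_le _) c0.2
  obtain ⟨g, hg⟩ := good_ex hb hw ω hcon
  have q1 : w + 1 + 2 ≤ qq1 w b := by
    unfold qq1
    have : 1 ≤ 2 ^ b * (2 ^ b * 2 ^ w) := Nat.succ_le_of_lt (by positivity)
    nlinarith
  -- the classes
  let P : V → V → Fin w → Prop := fun z a c =>
    ∃ F, Vd adj c0 A I EA EB EE ω {z, a} F ∧ (∀ e : EE, F e.1 = g e) ∧ F z = c
  let Lz : V → Finset (Fin w) := fun z => Finset.univ.filter fun c => ∀ a, P z a c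
  let cl : V → Finset V × (Finset V × Finset (Fin w)) := fun z =>
    (EE.filter fun e => adj z e, (EE.filter fun e => adj e z, Lz z))
  let K : Finset (Finset V × (Finset V × Finset (Fin w))) := J.image cl
  have hK : K.card ≤ 2 ^ b * (2 ^ b * 2 ^ w) := by
    have h1 : K ⊆ EE.powerset ×ˢ (EE.powerset ×ˢ (Finset.univ : Finset (Finset (Fin w)))) := by
      intro k hk
      obtain ⟨z, _, rfl⟩ := Finset.mem_image.1 hk
      simp only [cl, Finset.mem_product, Finset.mem_powerset, Finset.mem_univ, and_true]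
      exact ⟨Finset.filter_subset _ _, Finset.filter_subset _ _⟩
    refine (Finset.card_le_card h1).trans ?_
    rw [Finset.card_product, Finset.card_product, Finset.card_powerset, Finset.card_univ,
      Fintype.card_finset, Fintype.card_fin]
    have h2 : 2 ^ EE.card ≤ 2 ^ b := Nat.pow_le_pow_right (by norm_num) hb
    exact Nat.mul_le_mul h2 (Nat.mul_le_mul h2 le_rfl)
  have hρ : ∀ k, ∃ z : V, k ∈ K → z ∈ J ∧ cl z = k := by
    intro k
    by_cases hk : k ∈ K
    · obtain ⟨z, hz, rfl⟩ := Finset.mem_image.1 hk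
      exact ⟨z, fun _ => ⟨hz, rfl⟩⟩
    · obtain ⟨x, _⟩ := hno fun _ => c0
      exact ⟨x, fun h => absurd h hk⟩
  choose ρ hρ using hρ
  have hwa : ∀ z c, ∃ a, (∃ a', ¬ P z a' c) → ¬ P z a c := by
    intro z c
    by_cases h : ∃ a', ¬ P z a' c
    · obtain ⟨a', ha'⟩ := h
      exact ⟨a', fun _ => ha'⟩
    · exact ⟨z, fun h' => absurd h' h⟩
  choose wa hwa using hwa
  let T : Finset V := K.biUnion fun k => insert (ρ k) (Finset.univ.image (wa (ρ k)))
  have hT : T.card ≤ qq1 w b := by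
    refine (Finset.card_biUnion_le_card_mul _ _ (w + 1) fun k _ => ?_).trans ?_
    · refine (Finset.card_insert_le _ _).trans (Nat.succ_le_succ ?_)
      refine Finset.card_image_le.trans ?_
      simp
    · unfold qq1
      have := Nat.mul_le_mul_right (w + 1) hK
      omega
  obtain ⟨F, hF, hFg⟩ := hg T hT
  -- the representative
  let rp : V → V := fun z => ρ (cl z)
  have rJ : ∀ z ∈ J, rp z ∈ J ∧ cl (rp z) = cl z := fun z hz =>
    hρ (cl z) (Finset.mem_image_of_mem _ hz)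
  have rT : ∀ z ∈ J, rp z ∈ T := fun z hz =>
    Finset.mem_biUnion.2 ⟨cl z, Finset.mem_image_of_mem _ hz, Finset.mem_insert_self _ _⟩
  have rW : ∀ z ∈ J, ∀ c, wa (rp z) c ∈ T := fun z hz c =>
    Finset.mem_biUnion.2 ⟨cl z, Finset.mem_image_of_mem _ hz, Finset.mem_insert_of_mem
      (Finset.mem_image_of_mem _ (Finset.mem_univ _))⟩
  have key : ∀ z ∈ J, ∀ a, P z a (F (rp z)) := by
    intro z hz
    have h1 : F (rp z) ∈ Lz (rp z) := by
      rw [Finset.mem_filter]
      refine ⟨Finset.mem_univ _, ?_⟩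
      by_contra hne
      push Not at hne
      refine hwa (rp z) (F (rp z)) hne ⟨F, hF.sub ?_, hFg, rfl⟩
      intro x hx
      rcases Finset.mem_insert.1 hx with rfl | hx
      · exact rT z hz
      · rw [Finset.mem_singleton.1 hx]
        exact rW z hz _
    have h2 : Lz (rp z) = Lz z := by
      have := (rJ z hz).2
      simp only [cl, Prod.mk.injEq] at this
      exact this.2.2
    rw [h2, Finset.mem_filter] at h1
    exact h1.2
  have out_eq : ∀ z ∈ J, ∀ e ∈ EE, adj z e → adj (rp z) e := by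
    intro z hz e he ha
    have := (rJ z hz).2
    simp only [cl, Prod.mk.injEq] at this
    have h1 : e ∈ EE.filter fun e => adj z e := Finset.mem_filter.2 ⟨he, ha⟩
    rw [← this.1] at h1
    exact (Finset.mem_filter.1 h1).2
  have in_eq : ∀ z ∈ J, ∀ e ∈ EE, adj e z → adj e (rp z) := by
    intro z hz e he ha
    have := (rJ z hz).2
    simp only [cl, Prod.mk.injEq] at this
    have h1 : e ∈ EE.filter fun e => adj e z := Finset.mem_filter.2 ⟨he, ha⟩
    rw [← this.2.1] at h1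
    exact (Finset.mem_filter.1 h1).2
  have c1 : ∀ a : V, ({a} : Finset V).card ≤ qq1 w b := fun a => by
    rw [Finset.card_singleton]
    omega
  -- the facts
  have f1 : ∀ e ∈ EA, ∀ a ∈ A, adj e a → F e ≠ cw c0 (ω a) := by
    intro e he a ha had heq
    obtain ⟨F', hF', hg'⟩ := hg {a} (c1 a)
    have e1 : F' a = cw c0 (ω a) := hF'.col a (Finset.mem_singleton_self _) ha
    have e2 : F' e = F e := (hg' ⟨e, hEA he⟩).trans (hFg ⟨e, hEA he⟩).symm
    exact (hF'.pA e a (.single ⟨Or.inr (hEA he), Or.inl (Finset.mem_singleton_self _), had,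
      e2.trans (heq.trans e1.symm)⟩) he).1 ha
  have f2 : ∀ e ∈ EA, ∀ e' ∈ EB, adj e e' → F e ≠ F e' := by
    intro e he e' he' had heq
    exact (hF.pA e e' (.single ⟨Or.inr (hEA he), Or.inr (hEB he'), had, heq⟩) he).2 he'
  have f3 : ∀ a ∈ A, ∀ e' ∈ EB, adj a e' → cw c0 (ω a) ≠ F e' := by
    intro a ha e' he' had heq
    obtain ⟨F', hF', hg'⟩ := hg {a} (c1 a)
    have e1 : F' a = cw c0 (ω a) := hF'.col a (Finset.mem_singleton_self _) ha
    have e2 : F' e' = F e' := (hg' ⟨e', hEB he'⟩).trans (hFg ⟨e', hEB he'⟩).symm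
    exact hF'.pB a e' (.single ⟨Or.inl (Finset.mem_singleton_self _), Or.inr (hEB he'), had,
      e1.trans (heq.trans e2.symm)⟩) ha he'
  have f4 : ∀ z ∈ J, ∀ e ∈ EA, ∀ a ∈ A, adj e z → adj z a → F e = F (rp z) →
      F (rp z) ≠ cw c0 (ω a) := by
    intro z hz e he a ha h1 h2 h3 h4
    obtain ⟨F', hF', hg', hz'⟩ := key z hz a
    have e1 : F' a = cw c0 (ω a) := hF'.col a (by simp) ha
    have e2 : F' e = F e := (hg' ⟨e, hEA he⟩).trans (hFg ⟨e, hEA he⟩).symm
    exact (hF'.pA e a (.tail (.single ⟨Or.inr (hEA he), Or.inl (by simp), h1,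
      e2.trans (h3.trans hz'.symm)⟩) ⟨Or.inl (by simp), Or.inl (by simp), h2,
      hz'.trans (h4.trans e1.symm)⟩) he).1 ha
  have f5 : ∀ z ∈ J, ∀ e ∈ EA, ∀ e' ∈ EB, adj e z → adj z e' → F e = F (rp z) →
      F (rp z) ≠ F e' := by
    intro z hz e he e' he' h1 h2 h3 h4
    obtain ⟨F', hF', hg', hz'⟩ := key z hz z
    have e1 : F' e' = F e' := (hg' ⟨e', hEB he'⟩).trans (hFg ⟨e', hEB he'⟩).symm
    have e2 : F' e = F e := (hg' ⟨e, hEA he⟩).trans (hFg ⟨e, hEA he⟩).symm
    exact (hF'.pA e e' (.tail (.single ⟨Or.inr (hEA he), Or.inl (by simp), h1,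
      e2.trans (h3.trans hz'.symm)⟩) ⟨Or.inl (by simp), Or.inr (hEB he'), h2,
      hz'.trans (h4.trans e1.symm)⟩) he).2 he'
  have f6 : ∀ z ∈ J, ∀ a ∈ A, ∀ e' ∈ EB, adj a z → adj z e' → cw c0 (ω a) = F (rp z) →
      F (rp z) ≠ F e' := by
    intro z hz a ha e' he' h1 h2 h3 h4
    obtain ⟨F', hF', hg', hz'⟩ := key z hz a
    have e1 : F' e' = F e' := (hg' ⟨e', hEB he'⟩).trans (hFg ⟨e', hEB he'⟩).symm
    have e2 : F' a = cw c0 (ω a) := hF'.col a (by simp) ha
    exact hF'.pB a e' (.tail (.single ⟨Or.inl (by simp), Or.inl (by simp), h1,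
      e2.trans (h3.trans hz'.symm)⟩) ⟨Or.inl (by simp), Or.inr (hEB he'), h2,
      hz'.trans (h4.trans e1.symm)⟩) ha he'
  have f7 : ∀ z ∈ J, z ∈ I → ∀ c, ω z = Sum.inl c → F (rp z) = c := by
    intro z hz hzI c hc
    obtain ⟨F', hF', hg', hz'⟩ := key z hz z
    rw [← hz']
    exact hF'.inl z (by simp) hzI c hc
  have f8 : ∀ z ∈ J, z ∈ I → ω z = Sum.inr true → ∀ a ∈ A, adj z a →
      F (rp z) ≠ cw c0 (ω a) := by
    intro z hz hzI hq a ha had h1
    obtain ⟨F', hF', hg', hz'⟩ := key z hz a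
    have e2 : F' a = cw c0 (ω a) := hF'.col a (by simp) ha
    exact hF'.low z (by simp) hzI hq a (by simp) ha had (hz'.trans (h1.trans e2.symm))
  have f9 : ∀ z ∈ J, z ∈ I → ω z = Sum.inr false → ∀ a ∈ A, adj a z →
      F (rp z) ≠ cw c0 (ω a) := by
    intro z hz hzI hq a ha had h1
    obtain ⟨F', hF', hg', hz'⟩ := key z hz a
    have e2 : F' a = cw c0 (ω a) := hF'.col a (by simp) ha
    exact hF'.high z (by simp) hzI hq a (by simp) ha had (hz'.trans (h1.trans e2.symm))
  -- the colouring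
  let G : V → Fin w := fun x => if x ∈ A then cw c0 (ω x) else if x ∈ J then F (rp x) else F x
  have oA : ∀ x ∈ A, G x = cw c0 (ω x) := fun x hx => by simp [G, hx]
  have oJ : ∀ x ∈ J, G x = F (rp x) := fun x hx => by simp [G, hJA x hx, hx]
  have oE : ∀ x ∈ EE, x ∉ A → G x = F x := fun x hx hA => by
    have : x ∉ J := fun h => hJE x h hx
    simp [G, hA, this]
  let p0 : V → Prop := fun x => ∃ e ∈ EA, adj e x ∧ F e = F (rp x)
  let p2 : V → Prop := fun x => ∃ e ∈ EB, adj x e ∧ F (rp x) = F e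
  let lam : V → ℕ := fun x =>
    if x ∈ A then 1 else if x ∈ J then (if p0 x then 0 else if p2 x then 2 else 1)
    else if x ∈ EA then 0 else 2
  have lA : ∀ x ∈ A, lam x = 1 := fun x hx => by simp [lam, hx]
  have lJ : ∀ x ∈ J, lam x = if p0 x then 0 else if p2 x then 2 else 1 := fun x hx => by
    simp [lam, hJA x hx, hx]
  have lEA : ∀ x ∈ EA, lam x = 0 := fun x hx => by
    have : x ∉ J := fun h => hJE x h (hEA hx)
    simp [lam, dA x hx, hx, this]
  have lEB : ∀ x ∈ EB, lam x = 2 := fun x hx => by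
    have h1 : x ∉ EA := fun h => dE x h hx
    have h2 : x ∉ J := fun h => hJE x h (hEB hx)
    simp [lam, dB x hx, h1, h2]
  have lle : ∀ x, lam x ≤ 2 := fun x => by
    simp only [lam]
    split_ifs <;> norm_num
  obtain ⟨x, hx⟩ := hno G
  have hR : ∀ x y, (x ∈ S ∧ y ∈ S ∧ adj x y ∧ G x = G y) → lam y ≤ lam x := by
    rintro x y ⟨hx, hy, ha, he⟩
    rcases hS x hx with hx' | hx' | hx' | hx'
    · rw [lA x hx']
      rcases hS y hy with hy' | hy' | hy' | hy'
      · rw [lA y hy']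
      · rw [lEA y hy']
        exact Nat.zero_le _
      · exfalso
        rw [oA x hx', oE y (hEB hy') (dB y hy')] at he
        exact f3 x hx' y hy' ha he
      · rw [lJ y hy']
        rw [oA x hx', oJ y hy'] at he
        split_ifs with h1 h2
        · exact Nat.zero_le _
        · exfalso
          obtain ⟨e, he1, he2, he3⟩ := h2
          exact f6 y hy' x hx' e he1 ha he2 he he3
        · exact le_rfl
    · rcases hS y hy with hy' | hy' | hy' | hy'
      · exfalso
        rw [oA y hy', oE x (hEA hx') (dA x hx')] at he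
        exact f1 x hx' y hy' ha he
      · rw [lEA y hy']
        exact Nat.zero_le _
      · exfalso
        rw [oE x (hEA hx') (dA x hx'), oE y (hEB hy') (dB y hy')] at he
        exact f2 x hx' y hy' ha he
      · rw [lJ y hy', if_pos]
        · exact Nat.zero_le _
        · rw [oE x (hEA hx') (dA x hx'), oJ y hy'] at he
          exact ⟨x, hx', ha, he⟩
    · rw [lEB x hx']
      exact lle y
    · rcases hS y hy with hy' | hy' | hy' | hy'
      · rw [lA y hy', lJ x hx']
        rw [oJ x hx', oA y hy'] at he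
        split_ifs with h1 h2
        · exfalso
          obtain ⟨e, he1, he2, he3⟩ := h1
          exact f4 x hx' e he1 y hy' he2 ha he3 he
        · norm_num
        · exact le_rfl
      · rw [lEA y hy']
        exact Nat.zero_le _
      · rw [oJ x hx', oE y (hEB hy') (dB y hy')] at he
        rw [lEB y hy', lJ x hx']
        split_ifs with h1 h2
        · exfalso
          obtain ⟨e, he1, he2, he3⟩ := h1
          exact f5 x hx' e he1 y hy' he2 ha he3 he
        · exact le_rfl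
        · exact absurd ⟨y, hy', ha, he⟩ h2
      · exact absurd ha (hJJ x hx' y hy')
  have h2 := layer hR hx
  have hxS : x ∈ S := by
    obtain ⟨y, h3, _⟩ := Relation.TransGen.head'_iff.1 hx
    exact h3.1
  -- the cycles in the layers 0 and 2
  have rep : ∀ E' : Finset V, E' ⊆ EE → (∀ y ∈ E', y ∉ A) →
      (∀ y ∈ S, lam y = lam x → y ∈ E' ∨ y ∈ J) → False := by
    intro E' hE' hd hl
    refine hF.cyc (if x ∈ J then rp x else x) ?_
    refine Relation.TransGen.lift (fun y => if y ∈ J then rp y else y) (fun a b h => ?_) _ _ h2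
    show Mn adj EE T F (if a ∈ J then rp a else a) (if b ∈ J then rp b else b)
    rcases hl a h.1.1 h.2.1 with ha | ha
    · have haJ : a ∉ J := fun h => hJE a h (hE' ha)
      rcases hl b h.1.2.1 h.2.2 with hb' | hb'
      · have hbJ : b ∉ J := fun h => hJE b h (hE' hb')
        rw [if_neg haJ, if_neg hbJ]
        have he := h.1.2.2.2
        rw [oE a (hE' ha) (hd a ha), oE b (hE' hb') (hd b hb')] at he
        exact ⟨Or.inr (hE' ha), Or.inr (hE' hb'), h.1.2.2.1, he⟩
      · rw [if_neg haJ, if_pos hb']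
        have he := h.1.2.2.2
        rw [oE a (hE' ha) (hd a ha), oJ b hb'] at he
        exact ⟨Or.inr (hE' ha), Or.inl (rT b hb'), in_eq b hb' a (hE' ha) h.1.2.2.1, he⟩
    · rcases hl b h.1.2.1 h.2.2 with hb' | hb'
      · have hbJ : b ∉ J := fun h => hJE b h (hE' hb')
        rw [if_pos ha, if_neg hbJ]
        have he := h.1.2.2.2
        rw [oJ a ha, oE b (hE' hb') (hd b hb')] at he
        exact ⟨Or.inl (rT a ha), Or.inr (hE' hb'), out_eq a ha b (hE' hb') h.1.2.2.1, he⟩
      · exact absurd h.1.2.2.1 (hJJ a ha b hb')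
  have l3 : lam x = 0 ∨ lam x = 1 ∨ lam x = 2 := by
    have := lle x
    omega
  rcases l3 with l3 | l3 | l3
  · exfalso
    refine rep EA hEA dA fun y hy hlam => ?_
    rw [l3] at hlam
    rcases hS y hy with h | h | h | h
    · rw [lA y h] at hlam
      exact absurd hlam (by norm_num)
    · exact Or.inl h
    · rw [lEB y h] at hlam
      exact absurd hlam (by norm_num)
    · exact Or.inr h
  · -- the cycle is in the middle layer
    rw [l3] at h2
    let R1 : V → V → Prop := fun a b => (a ∈ S ∧ b ∈ S ∧ adj a b ∧ G a = G b) ∧ lam a = 1 ∧ lam b = 1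
    have hR1 : Relation.TransGen R1 x x := h2
    have hAJ : ∀ y ∈ S, lam y = 1 → y ∈ A ∨ y ∈ J := by
      intro y hy hlam
      rcases hS y hy with h | h | h | h
      · exact Or.inl h
      · rw [lEA y h] at hlam
        exact absurd hlam (by norm_num)
      · rw [lEB y h] at hlam
        exact absurd hlam (by norm_num)
      · exact Or.inr h
    have hzz : ∀ z, Relation.TransGen R1 z z → z ∈ A ∨ (z ∈ I ∧ ω z = Sum.inl (G z)) := by
      intro z hz
      obtain ⟨y1, h3, _⟩ := Relation.TransGen.head'_iff.1 hz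
      obtain ⟨y2, _, h4⟩ := Relation.TransGen.tail'_iff.1 hz
      rcases hAJ z h3.1.1 h3.2.1 with hzA | hzJ
      · exact Or.inl hzA
      have hy1 : y1 ∈ A := (hAJ y1 h3.1.2.1 h3.2.2).resolve_right fun h =>
        hJJ z hzJ y1 h h3.1.2.2.1
      have hy2 : y2 ∈ A := (hAJ y2 h4.1.1 h4.2.1).resolve_right fun h =>
        hJJ y2 h z hzJ h4.1.2.2.1
      have hzI : z ∈ I := hJI z hzJ y1 hy1 y2 hy2 h3.1.2.2.1 h4.1.2.2.1
      refine Or.inr ⟨hzI, ?_⟩
      rcases hq : ω z with c | q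
      · rw [oJ z hzJ, f7 z hzJ hzI c hq]
      · exfalso
        cases q
        · have he := h4.1.2.2.2
          rw [oJ z hzJ, oA y2 hy2] at he
          exact f9 z hzJ hzI hq y2 hy2 h4.1.2.2.1 he.symm
        · have he := h3.1.2.2.2
          rw [oJ z hzJ, oA y1 hy1] at he
          exact f8 z hzJ hzI hq y1 hy1 h3.1.2.2.1 he
    have h5 : Relation.TransGen (Mo adj c0 A I ω) x x := by
      refine Relation.TransGen.mono (fun a b h6 => ?_) _ _ (tg_loc hR1)
      have haa : Relation.TransGen R1 a a :=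
        Relation.TransGen.head' h6.1 (h6.2.2.trans h6.2.1)
      have hbb : Relation.TransGen R1 b b :=
        Relation.TransGen.tail' (h6.2.2.trans h6.2.1) h6.1
      have hco : ∀ z, Relation.TransGen R1 z z → Co c0 A I ω z (G z) := by
        intro z hz
        rcases hzz z hz with h | ⟨h, h'⟩
        · exact Or.inl ⟨h, (oA z h).symm⟩
        · exact Or.inr ⟨h, hJA z (hIJ h), h'⟩
      refine ⟨h6.1.1.2.2.1, G a, hco a haa, ?_⟩
      rw [h6.1.1.2.2.2]
      exact hco b hbb
    have hin : ∀ {a b}, Mo adj c0 A I ω a b → (a ∈ A ∨ a ∈ I) ∧ (b ∈ A ∨ b ∈ I) := by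
      rintro a b ⟨_, c, h6, h7⟩
      exact ⟨h6.imp (fun h => h.1) (fun h => h.1), h7.imp (fun h => h.1) (fun h => h.1)⟩
    obtain ⟨y, h6, h7⟩ := Relation.TransGen.head'_iff.1 h5
    rcases Relation.reflTransGen_iff_eq_or_transGen.1 h7 with h | h
    · rw [h] at h6
      exact ⟨_, _, (hin h6).1, (hin h6).1, h6.1, .single h6⟩
    · exact ⟨x, y, (hin h6).1, (hin h6).2, h6.1, h⟩
  · exfalso
    refine rep EB hEB dB fun y hy hlam => ?_
    rw [l3] at hlam
    rcases hS y hy with h | h | h | h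
    · rw [lA y h] at hlam
      exact absurd hlam (by norm_num)
    · rw [lEA y h] at hlam
      exact absurd hlam (by norm_num)
    · exact Or.inl h
    · exact Or.inr h

end HW73
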