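import Pool.Agent.HW73.SetV68

/-!
# HW73/LeafV68 : the line `NN I` is closed
-/

namespace HW73

open HJ71 HM71 HW71 HW72

variable {V : Type} {w : ℕ} {adj : V → V → Prop} {r : Fin w → V} {c0 : Fin w}
  {A I EA EB EE : Finset V}

/-- the cost of the last level -/
def LVc (w b p n q : ℕ) : ℕ :=
  (n + 1) * (n * n * (w * w * KW w)) + w * w * n ^ q * KV w b p q +
    (n * n + n ^ q + 1) * (w * w * KW w)

open Classical in
theorem leafV [Fintype V] (hrr : ∀ c c', c ≠ c' → adj (r c) (r c')) {l : List Dig}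
    (hb : Bas (w + 1) l) (hw : 3 ≤ w) {p b q : ℕ} (hSA : ∀ u ∈ A, SA adj r p u)
    (hEE : EE.card ≤ b) (hEA : EA ⊆ EE) (hEB : EB ⊆ EE)
    (dA : ∀ z ∈ EA, ∀ c, adj (r c) z) (dB : ∀ z ∈ EB, ∀ c, adj z (r c))
    (hcl : ∀ z, (z ∈ EA ∨ z ∈ EB) → ∀ c, Clo l (ColZ adj r z c))
    {o i : V → V} (hoi : ∀ z ∈ I, o z ∈ A ∧ i z ∈ A ∧ adj z (o z) ∧ adj (i z) z)
    (hIA : ∀ z ∈ I, z ∉ A)
    (hno : ∀ ω : Wo V w, (∃ u v, (u ∈ A ∨ u ∈ I) ∧ (v ∈ A ∨ v ∈ I) ∧ adj u v ∧
      Relation.TransGen (Mo adj c0 A I ω) v u) ∨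
      ∃ T : Finset V, T.card ≤ q ∧ ∀ F, ¬ Vd adj c0 A I EA EB EE ω T F) :
    ∃ l', Ext (w + 1) (LVc w b p (Fintype.card V) q) l l' ∧
      Clo l' (NN adj r c0 A (I : Set V)) := by
  have hV : Nonempty V := ⟨r ⟨0, by omega⟩⟩
  let L : List V := (A ∪ I).toList
  have hL : ∀ z, z ∈ A ∨ z ∈ I → z ∈ L := fun z hz => by simpa [L] using hz
  have hLl : L.length ≤ Fintype.card V := by
    simpa [L] using Finset.card_le_univ (A ∪ I)
  obtain ⟨l1, e1, h1⟩ := gw_all (c0 := c0) (A := A) (I := I) hrr hb hw hoi L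
    fun z hz => by simpa [L] using hz
  -- the sets
  let yy2 : (Fin q → V) → Wo V w → Prop := fun t ω =>
    ∀ F, ¬ Vd adj c0 A I EA EB EE ω (Finset.univ.image t) F
  have htc : ∀ t : Fin q → V, (Finset.univ.image t).card ≤ q := fun t => by
    refine Finset.card_image_le.trans ?_
    simp
  let S : Finset ((Fin w × Fin w) × (Fin q → V)) :=
    Finset.univ.filter fun x => x.1.1 ≠ x.1.2
  have hcf : Fintype.card (Fin q → V) = Fintype.card V ^ q := by
    rw [Fintype.card_fun, Fintype.card_fin]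
  have hS : S.card ≤ w * w * Fintype.card V ^ q := by
    refine (Finset.card_filter_le _ _).trans ?_
    rw [Finset.card_univ, Fintype.card_prod, Fintype.card_prod, Fintype.card_fin, hcf]
  obtain ⟨l2, e2, h2⟩ := der_all (k := w + 1) (l := l1) S
    (W := fun _ => Wo V w → V)
    (fun x => XW adj r c0 A I x.1.1 x.1.2 (yy2 x.2)) (c := KV w b p q)
    (fun x hx => setV_der hrr (hb.ext e1) hw hSA hEE hEA hEB dA dB
      (fun Y hY z hz hC => clo_colZW (fun c => (hcl z hz c).sub e1.1) hY hC) hoi hIA _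
      (htc x.2) (Finset.mem_filter.1 hx).2) l1 fun T h => h
  -- the disjunction
  let y : (V × V) ⊕ (Fin q → V) → Wo V w → Prop :=
    fun j ω =>
    match j with
    | Sum.inl q => yw adj c0 A I L q.2 q.1 ω
    | Sum.inr t => yy2 t ω
  let P1 : Finset (V × V) := Finset.univ.filter fun q =>
    (q.1 ∈ A ∨ q.1 ∈ I) ∧ (q.2 ∈ A ∨ q.2 ∈ I) ∧ adj q.1 q.2
  let P : Finset ((V × V) ⊕ (Fin q → V)) := P1.disjSum Finset.univ
  have hP : P.card ≤ Fintype.card V * Fintype.card V + Fintype.card V ^ q := by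
    rw [Finset.card_disjSum, Finset.card_univ, hcf]
    refine Nat.add_le_add_right ?_ _
    refine (Finset.card_filter_le _ _).trans ?_
    rw [Finset.card_univ, Fintype.card_prod]
  obtain ⟨l4, e4, h4⟩ := orw (c0 := c0) (A := A) (I := I) hrr ((hb.ext e1).ext e2) hw y P
    (by
      rintro (q | t) hi a b hab
      · obtain ⟨hu, hv, ha⟩ : (q.1 ∈ A ∨ q.1 ∈ I) ∧ (q.2 ∈ A ∨ q.2 ∈ I) ∧ adj q.1 q.2 :=
          (Finset.mem_filter.1 (Finset.inl_mem_disjSum.1 hi)).2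
        refine ((h1 a b hab q.2 q.1 hv hu).sub e2.1).le ?_
        rintro x z (h | h | ⟨rfl, rfl⟩)
        · exact Or.inl h
        · exact Or.inr h
        · exact Or.inl (Or.inl fun _ => ha)
      · exact h2 ((a, b), t) (by simp [S, hab]))
  have hab : (⟨0, by omega⟩ : Fin w) ≠ ⟨1, by omega⟩ := by simp
  refine ⟨l4, ((e1.trans e2).trans e4).up ?_, (h4 _ _ hab).le ?_⟩
  · unfold LVc
    refine Nat.add_le_add (Nat.add_le_add ?_ ?_) ?_
    · exact Nat.mul_le_mul_right _ (Nat.add_le_add_right hLl 1)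
    · exact Nat.mul_le_mul_right _ hS
    · exact Nat.mul_le_mul_right _ (Nat.add_le_add_right hP 1)
  · have hx : ∀ ω : Wo V w, ∃ j ∈ P, y j ω := by
      intro ω
      rcases hno ω with ⟨u, v, hu, hv, h5, h6⟩ | ⟨T, hT, hTF⟩
      · exact ⟨Sum.inl (u, v), Finset.inl_mem_disjSum.2
          (Finset.mem_filter.2 ⟨Finset.mem_univ _, hu, hv, h5⟩), yw_tg L hL ω h6⟩
      · obtain ⟨t, ht⟩ : ∃ t : Fin q → V, T ⊆ Finset.univ.image t := by
          let e := T.equivFin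
          refine ⟨fun j => if h : j.1 < T.card then (e.symm ⟨j.1, h⟩).1
            else Classical.arbitrary V, fun x hx => ?_⟩
          refine Finset.mem_image.2 ⟨⟨(e ⟨x, hx⟩).1, (e ⟨x, hx⟩).2.trans_le hT⟩,
            Finset.mem_univ _, ?_⟩
          have h7 : (e ⟨x, hx⟩).1 < T.card := (e ⟨x, hx⟩).2
          simp [h7]
        exact ⟨Sum.inr t, Finset.inr_mem_disjSum.2 (Finset.mem_univ _),
          fun F hF => hTF F (hF.sub ht)⟩
    have hbn : bo r ⟨0, by omega⟩ ⟨1, by omega⟩ (fun ω : Wo V w => ∃ j ∈ P, y j ω) =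
        cs _ (r ⟨0, by omega⟩) := by
      funext ω
      have := hx ω
      simp only [bo, na, cs]
      rw [if_pos this]
    rintro p q (h | h)
    · exact h
    · rcases h with ⟨h5, h6⟩ | ⟨h5, h6⟩
      · rw [h5, h6, hbn]
        exact Or.inl fun _ => hrr _ _ hab
      · rw [h5, h6, hbn]
        exact Or.inl fun _ => hrr _ _ hab.symm

end HW73
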