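import Pool.Agent.HW73.Helly68

/-!
# HW73/SetV68 : the line for a set `T` without valid colouring
-/

namespace HW73

open HJ71 HM71 HW71 HW72

section

variable {V Ω : Type} {w : ℕ} {adj : V → V → Prop} {r : Fin w → V}
  {Y : (Ω → V) → (Ω → V) → Prop} {M : Finset (Ω → V)} {F : (Ω → V) → Fin w}

theorem lgpath (h : LG adj r Y M F) {EE T : Finset V} (hE : ∀ x, x ∈ T ∨ x ∈ EE → cs Ω x ∈ M)
    {x y : V} (hxy : Relation.TransGen (Mn adj EE T fun v => F (cs Ω v)) x y) :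
    ¬ Y (cs Ω y) (cs Ω x) ∧ cs Ω x ∈ M ∧ cs Ω y ∈ M := by
  induction hxy with
  | single h1 =>
    exact ⟨(h.ch _ (hE _ h1.1) _ (hE _ h1.2.1) h1.2.2.2).resolve_left
      (not_not.2 (h.pow _ _ fun _ => h1.2.2.1)), hE _ h1.1, hE _ h1.2.1⟩
  | tail _ h1 ih =>
    have h2 := (h.ch _ (hE _ h1.1) _ (hE _ h1.2.1) h1.2.2.2).resolve_left
      (not_not.2 (h.pow _ _ fun _ => h1.2.2.1))
    exact ⟨h.pre.2 _ (hE _ h1.2.1) _ (hE _ h1.1) _ ih.2.1 h2 ih.1, ih.2.1, hE _ h1.2.1⟩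

theorem lgcycle (h : LG adj r Y M F) {EE T : Finset V} (hE : ∀ x, x ∈ T ∨ x ∈ EE → cs Ω x ∈ M)
    {x : V} (hx : Relation.TransGen (Mn adj EE T fun v => F (cs Ω v)) x x) : False := by
  obtain ⟨y, h1, h2⟩ := Relation.TransGen.head'_iff.1 hx
  rcases Relation.reflTransGen_iff_eq_or_transGen.1 h2 with h3 | h3
  · rw [h3] at h1
    exact h.pre.1 _ (hE _ h1.1) (h.pow _ _ fun _ => h1.2.2.1)
  · exact (lgpath h hE h3).1 (h.pow _ _ fun _ => h1.2.2.1)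

theorem lg_low (h : LG adj r Y M F) {z u : V} (hz : cs Ω z ∈ M) (hu : cs Ω u ∈ M)
    (hl : LowW Y r z) (hc : CldW Y r u) (hn : ¬ Y (cs Ω u) (cs Ω z)) : False := by
  obtain ⟨d, d', hdd, h1, h2⟩ := hl
  obtain ⟨c, hc⟩ := hc
  have key : ∀ e, e ≠ c → ¬ Y (cs Ω z) (cs Ω (r e)) → False := fun e he h3 =>
    h.pre.2 _ hu _ hz _ (h.rM e) hn h3 (hc e he).1
  by_cases hd : d = c
  · exact key d' (fun h3 => hdd (hd.trans h3.symm)) h2
  · exact key d hd h1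

theorem lg_high (h : LG adj r Y M F) {z u : V} (hz : cs Ω z ∈ M) (hu : cs Ω u ∈ M)
    (hl : HighW Y r z) (hc : CldW Y r u) (hn : ¬ Y (cs Ω z) (cs Ω u)) : False := by
  obtain ⟨d, d', hdd, h1, h2⟩ := hl
  obtain ⟨c, hc⟩ := hc
  have key : ∀ e, e ≠ c → ¬ Y (cs Ω (r e)) (cs Ω z) → False := fun e he h3 =>
    h.pre.2 _ (h.rM e) _ hz _ hu h3 hn (hc e he).2
  by_cases hd : d = c
  · exact key d' (fun h3 => hdd (hd.trans h3.symm)) h2
  · exact key d hd h1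

theorem lg_lh (h : LG adj r Y M F) {z z' : V} (hz : cs Ω z ∈ M) (hz' : cs Ω z' ∈ M)
    (hl : LowW Y r z) (hh : HighW Y r z') (hn : ¬ Y (cs Ω z') (cs Ω z)) : False := by
  obtain ⟨d, d', hdd, h1, h2⟩ := hl
  obtain ⟨e, e', hee, h3, h4⟩ := hh
  have key : ∀ d e, e ≠ d → ¬ Y (cs Ω z) (cs Ω (r d)) → ¬ Y (cs Ω (r e)) (cs Ω z') → False := by
    intro d e hed h5 h6
    refine h.pre.2 _ (h.rM e) _ hz' _ (h.rM d) h6 (h.pre.2 _ hz' _ hz _ (h.rM d) hn h5) ?_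
    exact h.pow _ _ fun _ => h.rr _ _ hed
  by_cases hd : e = d
  · exact key d' e (fun h5 => hdd (hd.symm.trans h5)) h2 h3
  · exact key d e hd h1 h3

end

variable {V : Type} {w : ℕ} {adj : V → V → Prop} {r : Fin w → V} {c0 : Fin w}
  {A I EA EB EE : Finset V}

/-- constant for the lines -/
def KV (w b p q : ℕ) : ℕ := KN w (q * w ^ w + q * q + q * q) (q + b + (q + b) * p) * 5

open Classical in
theorem setV_der (hrr : ∀ c c', c ≠ c' → adj (r c) (r c')) {l : List Dig} (hb : Bas (w + 1) l)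
    (hw : 3 ≤ w) {p b : ℕ} (hSA : ∀ u ∈ A, SA adj r p u) (hEE : EE.card ≤ b)
    (hEA : EA ⊆ EE) (hEB : EB ⊆ EE)
    (dA : ∀ z ∈ EA, ∀ c, adj (r c) z) (dB : ∀ z ∈ EB, ∀ c, adj z (r c))
    (hcl : ∀ Y : (Wo V w → V) → (Wo V w → V) → Prop, (∀ x y, PG _ adj x y → Y x y) →
      ∀ z, (z ∈ EA ∨ z ∈ EB) → CldW Y r z → Clo l Y)
    {o i : V → V} (hoi : ∀ z ∈ I, o z ∈ A ∧ i z ∈ A ∧ adj z (o z) ∧ adj (i z) z)
    (hIA : ∀ z ∈ I, z ∉ A) (T : Finset V) {q : ℕ} (hT : T.card ≤ q) {a a' : Fin w}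
    (haa : a ≠ a') :
    Der (w + 1) (KV w b p q) l
      (XW adj r c0 A I a a' fun ω => ∀ F, ¬ Vd adj c0 A I EA EB EE ω T F) := by
  choose B hB1 hB2 hB3 hB4 using hSA
  obtain ⟨ψ, hψ, _⟩ := fpf_ex (c := (⟨0, by omega⟩ : Fin w)) (d := ⟨1, by omega⟩) (by simp)
  let U : Finset V := (T ∪ EE).filter fun u => u ∈ A
  have hUA : U ⊆ A := fun u hu => (Finset.mem_filter.1 hu).2
  have hTE : (T ∪ EE).card ≤ q + b := (Finset.card_union_le _ _).trans (Nat.add_le_add hT hEE)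
  have hUc : U.card ≤ q + b := (Finset.card_filter_le _ _).trans hTE
  let Ex : Finset V := (T ∪ EE) ∪ U.attach.biUnion fun u => B u.1 (hUA u.2)
  have hEx : Ex.card ≤ q + b + (q + b) * p := by
    refine (Finset.card_union_le _ _).trans (Nat.add_le_add hTE ?_)
    refine (Finset.card_biUnion_le_card_mul _ _ p fun u _ => hB1 _ _).trans ?_
    rw [Finset.card_attach]
    exact Nat.mul_le_mul_right _ hUc
  let Q1 : Finset (Qd V w) := (T.filter fun u => u ∈ A ∨ u ∈ I).biUnion fun u => Qv o i u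
  let Q2 : Finset (Qd V w) :=
    ((T ×ˢ T).filter fun x => x.1 ∈ I ∧ x.2 ∈ A ∧ adj x.1 x.2).image
      fun x => (x.1, x.2, i x.1, ψ)
  let Q3 : Finset (Qd V w) :=
    ((T ×ˢ T).filter fun x => x.1 ∈ I ∧ x.2 ∈ A ∧ adj x.2 x.1).image
      fun x => (x.1, o x.1, x.2, ψ)
  have hTT : (T ×ˢ T).card ≤ q * q := by
    rw [Finset.card_product]
    exact Nat.mul_le_mul hT hT
  have hQc : (Q1 ∪ Q2 ∪ Q3).card ≤ q * w ^ w + q * q + q * q := by
    refine (Finset.card_union_le _ _).trans (Nat.add_le_add ((Finset.card_union_le _ _).trans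
      (Nat.add_le_add ?_ ?_)) ?_)
    · refine (Finset.card_biUnion_le_card_mul _ _ (w ^ w) fun u _ => Qv_card o i u).trans ?_
      exact Nat.mul_le_mul_right _ ((Finset.card_filter_le _ _).trans hT)
    · exact Finset.card_image_le.trans ((Finset.card_filter_le _ _).trans hTT)
    · exact Finset.card_image_le.trans ((Finset.card_filter_le _ _).trans hTT)
  refine (locN (c0 := c0) (A := A) (J := (I : Set V)) hrr hb hw
    ![fun ω => ∀ F, ¬ Vd adj c0 A I EA EB EE ω T F, fun _ => False, fun _ => False,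
      fun _ => False]
    _ (fun _ _ h => Or.inl h) (Q1 ∪ Q2 ∪ Q3)
    (fun x hx => ?_) (Ex.image fun x => cs _ x) (c := 0) (q := q * w ^ w + q * q + q * q)
    (s := q + b + (q + b) * p) hQc (Finset.card_image_le.trans hEx) ?_)
  · rcases Finset.mem_union.1 hx with hx | hx
    · rcases Finset.mem_union.1 hx with hx | hx
      · obtain ⟨u, hu, hx⟩ := Finset.mem_biUnion.1 hx
        exact Qv_gd hoi (Finset.mem_filter.1 hu).2 x hx
      · obtain ⟨y, hy, rfl⟩ := Finset.mem_image.1 hx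
        obtain ⟨_, h1, h2, h3⟩ := Finset.mem_filter.1 hy
        obtain ⟨g1, g2, g3, g4⟩ := hoi _ h1
        exact Or.inr ⟨h1, h2, g2, h3, g4, hψ⟩
    · obtain ⟨y, hy, rfl⟩ := Finset.mem_image.1 hx
      obtain ⟨_, h1, h2, h3⟩ := Finset.mem_filter.1 hy
      obtain ⟨g1, g2, g3, g4⟩ := hoi _ h1
      exact Or.inr ⟨h1, g1, h2, g3, h3, hψ⟩
  intro Y hY ω0 M F hL hQM hExM' hFQ _ h5
  have hExM : ∀ x ∈ Ex, cs _ x ∈ M := fun x hx => hExM' _ (Finset.mem_image_of_mem _ hx)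
  have hM : ∀ x, x ∈ T ∨ x ∈ EE → cs _ x ∈ M := fun x hx =>
    hExM x (Finset.mem_union_left _ (Finset.mem_union.2 hx))
  by_cases hC : ∃ z, (z ∈ EA ∨ z ∈ EB) ∧ CldW Y r z
  · obtain ⟨z, hz, hC⟩ := hC
    exact Der.of_clo (hcl Y hL.pow z hz hC)
  exfalso
  have hlow : ∀ z ∈ EA, LowW Y r z := by
    intro z hz
    rcases hL.status (hM z (Or.inr (hEA hz))) with h | h | ⟨d, _, _, h, _⟩
    · exact absurd ⟨z, Or.inl hz, h⟩ hC
    · exact h
    · exact absurd (hL.pow _ _ fun _ => dA z hz d) h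
  have hhigh : ∀ z ∈ EB, HighW Y r z := by
    intro z hz
    rcases hL.status (hM z (Or.inr (hEB hz))) with h | ⟨d, _, _, h, _⟩ | h
    · exact absurd ⟨z, Or.inr hz, h⟩ hC
    · exact absurd (hL.pow _ _ fun _ => dB z hz d) h
    · exact h
  have hCu : ∀ u ∈ A, (u ∈ T ∨ u ∈ EE) → CldW Y r u := by
    intro u huA hu
    have huU : u ∈ U := Finset.mem_filter.2 ⟨Finset.mem_union.2 hu, huA⟩
    obtain ⟨c, hc⟩ := hB4 u huA _ (fun x => cs _ x) M Y (fun x hx => hExM x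
      (Finset.mem_union_right _ (Finset.mem_biUnion.2 ⟨⟨u, huU⟩, Finset.mem_attach _ _, hx⟩)))
      (fun x y h => hL.pow _ _ fun _ => h) hL.pre hL.free
    exact ⟨c, hc.2⟩
  have hyT : ∀ F, ¬ Vd adj c0 A I EA EB EE ω0 T F :=
    h5 0 a a' haa fun p q hpq => hY _ _ (Or.inr hpq)
  have hYN : ∀ x y, NN adj r c0 A (I : Set V) x y → Y x y := fun x y h => hY _ _ (Or.inl h)
  have hco : ∀ u ∈ T, (u ∈ A ∨ u ∈ I) → ∀ c, Co c0 A I ω0 u c → F (cs _ u) = c := by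
    intro u hu huA c hc
    exact F_co hw hoi hL hYN hQM hFQ (u := u) (fun x hx => Finset.mem_union_left _
      (Finset.mem_union_left _ (Finset.mem_biUnion.2 ⟨u, Finset.mem_filter.2 ⟨hu, huA⟩, hx⟩)))
      (hM u (Or.inl hu)) hc
  have hcol : ∀ u ∈ T, u ∈ A → F (cs _ u) = cw c0 (ω0 u) := fun u hu huA =>
    hco u hu (Or.inl huA) _ (Or.inl ⟨huA, rfl⟩)
  refine hyT (fun v => F (cs _ v)) ⟨hcol, fun z hz hzI c hc => hco z hz (Or.inr hzI) c
    (Or.inr ⟨hzI, hIA z hzI, hc⟩), fun z hz hzI hq x hx hxA had heq => ?_,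
    fun z hz hzI hq x hx hxA had heq => ?_, fun x hx => lgcycle hL hM hx,
    fun x y hxy hx => ?_, fun x y hxy hx hy => ?_⟩
  · obtain ⟨g1, g2, g3, g4⟩ := hoi z hzI
    have hm : ((z, x, i z, ψ) : Qd V w) ∈ Q1 ∪ Q2 ∪ Q3 :=
      Finset.mem_union_left _ (Finset.mem_union_right _ (Finset.mem_image.2
        ⟨(z, x), Finset.mem_filter.2 ⟨Finset.mem_product.2 ⟨hz, hx⟩, hzI, hxA, had⟩, rfl⟩))
    refine F_ne hL hYN (hIA z hzI) (Finset.mem_coe.2 hzI) hxA g2 had g4 hψ (hM z (Or.inl hz))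
      (hQM _ hm) (hFQ _ hm) ?_
    have e2 := hcol x hx hxA
    simp only [gf, hq]
    exact heq.trans e2
  · obtain ⟨g1, g2, g3, g4⟩ := hoi z hzI
    have hm : ((z, o z, x, ψ) : Qd V w) ∈ Q1 ∪ Q2 ∪ Q3 :=
      Finset.mem_union_right _ (Finset.mem_image.2
        ⟨(z, x), Finset.mem_filter.2 ⟨Finset.mem_product.2 ⟨hz, hx⟩, hzI, hxA, had⟩, rfl⟩)
    refine F_ne hL hYN (hIA z hzI) (Finset.mem_coe.2 hzI) g1 hxA g3 had hψ (hM z (Or.inl hz))
      (hQM _ hm) (hFQ _ hm) ?_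
    have e2 := hcol x hx hxA
    simp only [gf, hq]
    exact heq.trans e2
  · obtain ⟨h1, h2, h3⟩ := lgpath hL hM hxy
    obtain ⟨y', _, h4⟩ := Relation.TransGen.tail'_iff.1 hxy
    exact ⟨fun hyA => lg_low hL h2 h3 (hlow x hx) (hCu y hyA h4.2.1) h1,
      fun hyB => lg_lh hL h2 h3 (hlow x hx) (hhigh y hyB) h1⟩
  · obtain ⟨h1, h2, h3⟩ := lgpath hL hM hxy
    obtain ⟨x', h4, _⟩ := Relation.TransGen.head'_iff.1 hxy
    exact lg_high hL h3 h2 (hhigh y hy) (hCu x hx h4.1) h1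

end HW73
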