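import Pool.Agent.HW73.LeafV68
import Pool.Agent.HW72.StageW

/-!
# HW73/StageV68 : all levels with a bounded part `E` and an independent part `I`
-/

namespace HW73

open HJ71 HM71 HW71 HW72

variable {V : Type} {w : ℕ} {adj : V → V → Prop} {r : Fin w → V} {A E I : Finset V}

/-- the cost of one stage -/
def QV (w b p n : ℕ) : ℕ :=
  LVc w b p n (qq w b) + n * (3 * n * Kp p) + n * (2 ^ (p * p) * 5)

/-- the hypotheses on the vertex sets -/
structure HV (adj : V → V → Prop) (r : Fin w → V) (A E I : Finset V) : Prop where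
  rA : ∀ c, r c ∈ A
  IA : ∀ z ∈ I, z ∉ A
  IE : ∀ z ∈ I, z ∉ E
  II : ∀ z ∈ I, ∀ y ∈ I, ¬ adj z y

open Classical in
theorem stageV [Fintype V] (hrr : ∀ c c', c ≠ c' → adj (r c) (r c')) (hw : 3 ≤ w) {p b : ℕ}
    (hp : w + 1 ≤ p) (hSA : ∀ u ∈ A, SA adj r p u) (hE : E.card ≤ b) (hI : HV adj r A E I)
    (hno : NoCol w adj {x | x ∈ A ∨ x ∈ E ∨ x ∈ I}) (κ : V → Fin w ⊕ Bool) {l : List Dig}
    (hb : Bas (w + 1) l)
    (hcl : ∀ z ∈ E, (¬ ∃ c, κ z = Sum.inl c) → ∀ c,
      Clo l (adjK adj r E (Function.update κ z (Sum.inl c)))) :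
    Der (w + 1) (QV w b p (Fintype.card V)) l (adjK adj r E κ) := by
  have hV : Nonempty V := ⟨r ⟨0, by omega⟩⟩
  have hV1 : 0 < Fintype.card V := Fintype.card_pos
  let c0 : Fin w := ⟨0, by omega⟩
  let a := adjK adj r E κ
  have haa : ∀ x y, adj x y → a x y := fun x y h => Or.inl h
  have hrr' : ∀ c c', c ≠ c' → a (r c) (r c') := fun c c' h => haa _ _ (hrr c c' h)
  let A' : Finset V := A ∪ E.filter fun z => ∃ c, κ z = Sum.inl c
  have hAA : A ⊆ A' := Finset.subset_union_left
  let EA : Finset V := E.filter fun z => z ∉ A' ∧ κ z = Sum.inr true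
  let EB : Finset V := E.filter fun z => z ∉ A' ∧ κ z = Sum.inr false
  have hSA' : ∀ u ∈ A', SA a r p u := by
    intro u hu
    rcases Finset.mem_union.1 hu with hu | hu
    · exact (hSA u hu).adj_mono haa
    · obtain ⟨huE, c, hc⟩ := Finset.mem_filter.1 hu
      refine (SA.near (a := c) (b := c) (fun c' hc' => ?_) (fun c' hc' => ?_) hrr').mono hp
      · exact Or.inr ⟨u, huE, by rw [hc]; exact ⟨c', hc', Or.inl ⟨rfl, rfl⟩⟩⟩
      · exact Or.inr ⟨u, huE, by rw [hc]; exact ⟨c', hc', Or.inr ⟨rfl, rfl⟩⟩⟩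
  have hIA' : ∀ z ∈ I, z ∉ A' := fun z hz h => by
    rcases Finset.mem_union.1 h with h | h
    · exact hI.IA z hz h
    · exact hI.IE z hz (Finset.mem_filter.1 h).1
  -- arcs at `z ∈ I` are old
  have hold : ∀ z ∈ I, ∀ y, (a z y → adj z y) ∧ (a y z → adj y z) := by
    intro z hz y
    have hr : ∀ c, z ≠ r c := fun c h => hI.IA z hz (h ▸ hI.rA c)
    have hz' : ∀ x ∈ E, z ≠ x := fun x hx h => hI.IE z hz (h ▸ hx)
    constructor
    · rintro (h | ⟨x, hx, h⟩)
      · exact h
      · exfalso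
        revert h
        rcases κ x with c | q
        · rintro ⟨c', _, ⟨h, _⟩ | ⟨h, _⟩⟩
          · exact hz' x hx h
          · exact hr _ h
        · cases q
          · rintro ⟨c, h, _⟩
            exact hz' x hx h
          · rintro ⟨c, h, _⟩
            exact hr _ h
    · rintro (h | ⟨x, hx, h⟩)
      · exact h
      · exfalso
        revert h
        rcases κ x with c | q
        · rintro ⟨c', _, ⟨_, h⟩ | ⟨_, h⟩⟩
          · exact hr _ h
          · exact hz' x hx h
        · cases q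
          · rintro ⟨c, _, h⟩
            exact hr _ h
          · rintro ⟨c, _, h⟩
            exact hz' x hx h
  let I' : Finset V := I.filter fun z => (∃ a1 ∈ A', a z a1) ∧ ∃ a2 ∈ A', a a2 z
  have hI'I : I' ⊆ I := Finset.filter_subset _ _
  have hoi0 : ∀ z : V, ∃ o i : V, z ∈ I' → o ∈ A' ∧ i ∈ A' ∧ a z o ∧ a i z := by
    intro z
    by_cases hz : z ∈ I'
    · obtain ⟨_, ⟨a1, h1, h2⟩, a2, h3, h4⟩ := Finset.mem_filter.1 hz
      exact ⟨a1, a2, fun _ => ⟨h1, h3, h2, h4⟩⟩
    · exact ⟨z, z, fun h => absurd h hz⟩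
  choose o i hoi using hoi0
  intro l1 hl1
  have hb1 : Bas (w + 1) l1 := hb.sub hl1
  obtain ⟨l2, e2, h2⟩ := leafV (q := qq w b) (c0 := c0) (A := A') (I := I') (EA := EA) (EB := EB) (EE := E)
    (adj := a) hrr' hb1 hw
    hSA' hE (Finset.filter_subset _ _) (Finset.filter_subset _ _)
    (fun z hz c => by
      obtain ⟨hzE, _, hz⟩ := Finset.mem_filter.1 hz
      exact Or.inr ⟨z, hzE, by rw [hz]; exact ⟨c, rfl, rfl⟩⟩)
    (fun z hz c => by
      obtain ⟨hzE, _, hz⟩ := Finset.mem_filter.1 hz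
      exact Or.inr ⟨z, hzE, by rw [hz]; exact ⟨c, rfl, rfl⟩⟩)
    (fun z hz c => by
      have hzE : z ∈ E ∧ ¬ ∃ c, κ z = Sum.inl c := by
        rcases hz with hz | hz
        · obtain ⟨h1, _, h3⟩ := Finset.mem_filter.1 hz
          exact ⟨h1, by rw [h3]; simp⟩
        · obtain ⟨h1, _, h3⟩ := Finset.mem_filter.1 hz
          exact ⟨h1, by rw [h3]; simp⟩
      refine ((hcl z hzE.1 hzE.2 c).sub hl1).le ?_
      rintro x y (h | ⟨z', hz', h⟩)
      · exact Or.inl (haa _ _ h)
      · by_cases hzz : z' = z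
        · subst hzz
          rw [Function.update_self] at h
          exact Or.inr h
        · rw [Function.update_of_ne hzz] at h
          exact Or.inl (Or.inr ⟨z', hz', h⟩))
    (fun z hz => hoi z hz) (fun z hz => hIA' z (hI'I hz))
    (splitV (J := I) (S := {x | x ∈ A ∨ x ∈ E ∨ x ∈ I}) (Finset.filter_subset _ _)
      (Finset.filter_subset _ _) (fun x hx => (Finset.mem_filter.1 hx).2.1)
      (fun x hx => (Finset.mem_filter.1 hx).2.1)
      (fun x hx hx' => by
        have h3 := (Finset.mem_filter.1 hx).2.2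
        rw [(Finset.mem_filter.1 hx').2.2] at h3
        simp at h3)
      (fun z hz => hIA' z hz) (fun z hz => hI.IE z hz)
      (fun z hz y hy h => hI.II z hz y hy ((hold z hz y).1 h)) hI'I
      (fun z hz x hx x' hx' h h' => Finset.mem_filter.2 ⟨hz, ⟨x, hx, h⟩, x', hx', h'⟩)
      (fun x hx => by
        rcases hx with hx | hx | hx
        · exact Or.inl (hAA hx)
        · by_cases hA : x ∈ A'
          · exact Or.inl hA
          · rcases hκ : κ x with c | q
            · exact absurd (Finset.mem_union_right _ (Finset.mem_filter.2 ⟨hx, c, hκ⟩)) hA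
            · cases q
              · exact Or.inr (Or.inr (Or.inl (Finset.mem_filter.2 ⟨hx, hA, hκ⟩)))
              · exact Or.inr (Or.inl (Finset.mem_filter.2 ⟨hx, hA, hκ⟩))
        · exact Or.inr (Or.inr (Or.inr hx)))
      (hno.adj_mono haa) hE)
  obtain ⟨l3, e3, h3⟩ := elims (c0 := c0) (adj := a) (r := r) (p := p) (A := A') hrr' hw
    (by omega) hSA' I' (fun z hz => hIA' z (hI'I hz)) (hb1.ext e2) h2 l2 fun T h => h
  obtain ⟨l4, e4, h4⟩ := levels (adj := a) (r := r) (p := p) A' hSA' ((hb1.ext e2).ext e3)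
    (to_Lv h3) l3 fun T h => h
  refine ⟨l4, ((e2.trans e3).trans e4).up ?_, ?_⟩
  · exact Nat.add_le_add (Nat.add_le_add le_rfl
      (Nat.mul_le_mul_right _ (Finset.card_le_univ I')))
      (Nat.mul_le_mul_right _ (Finset.card_le_univ A'))
  · refine h4.hom (fun x => x fun _ => ⟨0, by omega⟩) ?_
    rintro x y (h | ⟨v, hv, _⟩)
    · exact h _
    · exact absurd hv (by simp)

open Classical in
theorem stagesV [Fintype V] (hrr : ∀ c c', c ≠ c' → adj (r c) (r c')) (hw : 3 ≤ w) {p b : ℕ}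
    (hp : w + 1 ≤ p) (hSA : ∀ u ∈ A, SA adj r p u) (hE : E.card ≤ b) (hI : HV adj r A E I)
    (hno : NoCol w adj {x | x ∈ A ∨ x ∈ E ∨ x ∈ I}) (j : ℕ) :
    ∀ (κ : V → Fin w ⊕ Bool) {l : List Dig}, Bas (w + 1) l →
    (E.filter fun z => ¬ ∃ c, κ z = Sum.inl c).card ≤ j →
    Der (w + 1) (QV w b p (Fintype.card V) * (b * w + 1) ^ j) l (adjK adj r E κ) := by
  induction j with
  | zero =>
    intro κ l hb hj
    refine (stageV hrr hw hp hSA hE hI hno κ hb fun z hz hz' => ?_).up (by simp)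
    have h0 : z ∈ E.filter fun z => ¬ ∃ c, κ z = Sum.inl c := Finset.mem_filter.2 ⟨hz, hz'⟩
    rw [Finset.card_eq_zero.1 (Nat.le_zero.1 hj)] at h0
    exact absurd h0 (Finset.notMem_empty _)
  | succ j ih =>
    intro κ l hb hj l1 hl1
    let N : Finset V := E.filter fun z => ¬ ∃ c, κ z = Sum.inl c
    let S : Finset (V × Fin w) := N ×ˢ Finset.univ
    have hS : S.card ≤ b * w := by
      rw [Finset.card_product, Finset.card_univ, Fintype.card_fin]
      exact Nat.mul_le_mul_right _ ((Finset.card_filter_le _ _).trans hE)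
    obtain ⟨l2, e2, h2⟩ := der_all (k := w + 1) (l := l) S (W := fun _ => V)
      (fun q => adjK adj r E (Function.update κ q.1 (Sum.inl q.2)))
      (c := QV w b p (Fintype.card V) * (b * w + 1) ^ j)
      (fun q hq => by
        have hqN : q.1 ∈ N := (Finset.mem_product.1 hq).1
        refine ih _ hb ?_
        have : (E.filter fun z => ¬ ∃ c, Function.update κ q.1 (Sum.inl q.2) z = Sum.inl c).card <
            N.card := by
          refine Finset.card_lt_card (Finset.ssubset_iff_subset_ne.2 ⟨?_, ?_⟩)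
          · intro z hz
            obtain ⟨hzE, hz⟩ := Finset.mem_filter.1 hz
            by_cases hzq : z = q.1
            · rw [hzq]
              exact hqN
            · rw [Function.update_of_ne hzq] at hz
              exact Finset.mem_filter.2 ⟨hzE, hz⟩
          · intro he
            rw [← he] at hqN
            obtain ⟨_, h3⟩ := Finset.mem_filter.1 hqN
            exact h3 ⟨q.2, by rw [Function.update_self]⟩
        exact Nat.lt_succ_iff.1 (lt_of_lt_of_le this hj)) l1 hl1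
    obtain ⟨l3, e3, h3⟩ := stageV hrr hw hp hSA hE hI hno κ ((hb.sub hl1).ext e2)
      (fun z hz hz' c => h2 (z, c) (Finset.mem_product.2 ⟨Finset.mem_filter.2 ⟨hz, hz'⟩,
        Finset.mem_univ _⟩)) l2 fun T h => h
    refine ⟨l3, (e2.trans e3).up ?_, h3⟩
    have h4 : 1 ≤ (b * w + 1) ^ j := Nat.one_le_pow _ _ (by omega)
    calc S.card * (QV w b p (Fintype.card V) * (b * w + 1) ^ j) +
          QV w b p (Fintype.card V)
        ≤ b * w * (QV w b p (Fintype.card V) * (b * w + 1) ^ j) +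
          QV w b p (Fintype.card V) * (b * w + 1) ^ j :=
          Nat.add_le_add (Nat.mul_le_mul_right _ hS) (Nat.le_mul_of_pos_right _ h4)
      _ = QV w b p (Fintype.card V) * (b * w + 1) ^ (j + 1) := by ring

/-- the cost with exceptional vertices -/
def QVX (w b p n : ℕ) : ℕ :=
  2 ^ ((b + w) * (b + w)) * (QV w b p n * (b * w + 1) ^ b + 5)

open Classical in
theorem coreV [Fintype V] (hrr : ∀ c c', c ≠ c' → adj (r c) (r c')) (hw : 3 ≤ w) {p b : ℕ}
    (hp : w + 1 ≤ p) (hSA : ∀ u ∈ A, SA adj r p u) (hE : E.card ≤ b) (hI : HV adj r A E I)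
    (hno : NoCol w adj {x | x ∈ A ∨ x ∈ E ∨ x ∈ I}) {l : List Dig} (hb : Bas (w + 1) l) :
    Der (w + 1) (QVX w b p (Fintype.card V)) l adj := by
  let M : Finset V := E ∪ Finset.univ.image r
  have hM : M.card ≤ b + w :=
    (Finset.card_union_le _ _).trans (Nat.add_le_add hE (card_img r))
  refine (lcl hb adj M (c := QV w b p (Fintype.card V) * (b * w + 1) ^ b)
    fun Y hY hP => ?_).up
    (Nat.mul_le_mul (Nat.pow_le_pow_right (by norm_num) (Nat.mul_le_mul hM hM)) le_rfl)
  have hst : ∀ z ∈ E, ∃ s : Fin w ⊕ Bool, ∀ x y, stat r z s x y → Y x y := by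
    intro z hz
    rcases status1 hP (Finset.mem_union_left _ hz) (g := r)
      (fun c => Finset.mem_union_right _ (Finset.mem_image_of_mem _ (Finset.mem_univ c)))
      (fun c c' h => hY _ _ (hrr c c' h)) with ⟨c, hc⟩ | h | h
    · refine ⟨Sum.inl c, ?_⟩
      rintro x y ⟨c', hc', ⟨rfl, rfl⟩ | ⟨rfl, rfl⟩⟩
      · exact (hc c' hc').1
      · exact (hc c' hc').2
    · refine ⟨Sum.inr true, ?_⟩
      rintro x y ⟨c, rfl, rfl⟩
      exact h c
    · refine ⟨Sum.inr false, ?_⟩
      rintro x y ⟨c, rfl, rfl⟩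
      exact h c
  choose s hs using hst
  let κ : V → Fin w ⊕ Bool := fun z => if h : z ∈ E then s z h else Sum.inr true
  have hκ : ∀ z (h : z ∈ E), κ z = s z h := fun z h => by simp [κ, h]
  refine (stagesV hrr hw hp hSA hE hI hno b κ hb ((Finset.card_filter_le _ _).trans hE)).hom
    (fun x => x) ?_
  rintro x y (h | ⟨z, hz, h⟩)
  · exact hY _ _ h
  · rw [hκ z hz] at h
    exact hs z hz x y h

end HW73
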